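import Pool.Agent.Q211.PV.Var

/-!
# The perimeter variance of the convex hull of a degenerate drifting walk can be almost linear
-/

set_option autoImplicit false

open MeasureTheory ProbabilityTheory Filter Topology Set
open scoped ENNReal InnerProductSpace

namespace Pool.Agent.Results.MP_1c2560_pr.PerimeterVariance

open Pool.Agent.Q211.PV

/-- The walk `S_k = Z_0 + ... + Z_{k-1}`. -/
noncomputable def walk (z : ℕ → Pl) (k : ℕ) : Pl := ∑ i ∈ Finset.range k, z i

/-- The perimeter `L_n` of the convex hull of `S_0, ..., S_n`. -/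
noncomputable def hullPerimeter (z : ℕ → Pl) (n : ℕ) : ℝ :=
  perimeter (convexHull ℝ (walk z '' Set.Iic n))

/-- One step of the walk. -/
noncomputable def step (e : ℕ × Bool) : Pl := !₂[1, wv e]

theorem walk_coord (e : ℕ → ℕ × Bool) (k : ℕ) :
    walk (fun i => step (e i)) (k + 1) 1 - walk (fun i => step (e i)) k 1 = wv (e k) := by
  unfold walk
  rw [Finset.sum_range_succ]
  simp [step]

theorem norm_step (e : ℕ × Bool) : ‖step e‖ ≤ 1 + |wv e| := by
  rw [EuclideanSpace.norm_eq, Fin.sum_univ_two]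
  refine Real.sqrt_le_iff.2 ⟨by positivity, ?_⟩
  have : (0 : ℝ) ≤ |wv e| := abs_nonneg _
  simp only [step, Real.norm_eq_abs, sq_abs]
  simp
  nlinarith [sq_abs (wv e)]

theorem dist_walk (z : ℕ → Pl) (n i j : ℕ) (hi : i ≤ n) (hj : j ≤ n) :
    dist (walk z i) (walk z j) ≤ ∑ k ∈ Finset.range n, ‖z k‖ := by
  wlog h : i ≤ j generalizing i j
  · rw [dist_comm]
    exact this j i hj hi (le_of_not_ge h)
  rw [dist_comm, dist_eq_norm]
  unfold walk
  rw [← Finset.sum_Ico_eq_sub _ h]
  refine (norm_sum_le _ _).trans ?_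
  refine Finset.sum_le_sum_of_subset_of_nonneg ?_ fun _ _ _ => norm_nonneg _
  intro k hk
  rw [Finset.mem_Ico] at hk
  exact Finset.mem_range.2 (lt_of_lt_of_le hk.2 hj)

theorem perimeter_bounds (e : ℕ → ℕ × Bool) (n : ℕ) :
    hullPerimeter (fun i => step (e i)) n ≤
        2 * (n + 1) ^ 2 * ∑ k ∈ Finset.range n, (1 + |wv (e k)|) ∧
      (∀ i < n, |wv (e i)| ≤ hullPerimeter (fun i => step (e i)) n) := by
  obtain ⟨h1, h2⟩ := hull_bounds (walk fun i => step (e i)) n
  constructor
  · refine (h1 : hullPerimeter (fun i => step (e i)) n ≤ _).trans ?_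
    have h3 : ∀ i ∈ Finset.range (n + 1), ∀ j ∈ Finset.range (n + 1),
        dist (walk (fun i => step (e i)) i) (walk (fun i => step (e i)) j) ≤
          ∑ k ∈ Finset.range n, (1 + |wv (e k)|) := by
      intro i hi j hj
      refine (dist_walk _ n i j (Nat.lt_succ_iff.1 (Finset.mem_range.1 hi))
        (Nat.lt_succ_iff.1 (Finset.mem_range.1 hj))).trans ?_
      exact Finset.sum_le_sum fun k _ => norm_step _
    have h4 := Finset.sum_le_sum fun i hi => Finset.sum_le_sum fun j hj => h3 i hi j hj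
    refine (mul_le_mul_of_nonneg_left h4 zero_le_two).trans (le_of_eq ?_)
    simp
    ring
  · intro i hi
    have h3 := h2 (i + 1) hi i hi.le
    rwa [walk_coord] at h3

theorem perimeter_nonneg (K : Set Pl) : 0 ≤ perimeter K := by
  unfold perimeter
  split_ifs <;> positivity

/-- The sample space. -/
abbrev Om := ℕ → ℕ × Bool

/-- The law of the sequence of steps. -/
noncomputable def PP : Measure Om := Measure.infinitePi fun _ : ℕ => P0

instance : IsProbabilityMeasure PP := by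
  unfold PP
  infer_instance

/-- Extension of a finite sequence. -/
def ext0 {n : ℕ} (f : Fin n → ℕ × Bool) (i : ℕ) : ℕ × Bool :=
  if h : i < n then f ⟨i, h⟩ else (0, true)

theorem measurable_L (n : ℕ) :
    Measurable fun ω : Om => hullPerimeter (fun i => step (ω i)) n := by
  have h1 : (fun ω : Om => hullPerimeter (fun i => step (ω i)) n) =
      (fun f : Fin n → ℕ × Bool => hullPerimeter (fun i => step (ext0 f i)) n) ∘
        (fun ω : Om => fun i : Fin n => ω i) := by
    funext ω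
    simp only [Function.comp_apply, hullPerimeter]
    congr 2
    refine Set.image_congr fun k hk => ?_
    unfold walk
    refine Finset.sum_congr rfl fun i hi => ?_
    have hin : i < n := lt_of_lt_of_le (Finset.mem_range.1 hi) hk
    simp [ext0, hin]
  rw [h1]
  exact (measurable_of_countable _).comp (measurable_pi_lambda _ fun i => measurable_pi_apply _)

theorem map_eval (i : ℕ) : PP.map (fun ω => ω i) = P0 :=
  Measure.infinitePi_map_eval (fun _ : ℕ => P0) i

theorem memLp_wvi (i : ℕ) : MemLp (fun ω : Om => wv (ω i)) 2 PP := by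
  have h := memLp_wv
  rw [← map_eval i] at h
  exact h.comp_of_map (measurable_pi_apply i).aemeasurable

theorem memLp_bound (n : ℕ) : MemLp (fun ω : Om => 2 * ((n : ℝ) + 1) ^ 2 *
    ∑ k ∈ Finset.range n, (1 + |wv (ω k)|)) 2 PP := by
  have h : ∀ k, MemLp (fun ω : Om => 1 + |wv (ω k)|) 2 PP := fun k =>
    (memLp_const (1 : ℝ)).add (memLp_wvi k).abs
  have hs : MemLp (fun ω : Om => ∑ k ∈ Finset.range n, (1 + |wv (ω k)|)) 2 PP :=
    memLp_finsetSum (Finset.range n) fun k _ => h k
  exact hs.const_mul (2 * ((n : ℝ) + 1) ^ 2)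

theorem memLp_L (n : ℕ) : MemLp (fun ω : Om => hullPerimeter (fun i => step (ω i)) n) 2 PP := by
  refine (memLp_bound n).mono' (measurable_L n).aestronglyMeasurable ?_
  refine Eventually.of_forall fun ω => ?_
  have h0 : 0 ≤ hullPerimeter (fun i => step (ω i)) n := perimeter_nonneg _
  rw [Real.norm_eq_abs, abs_of_nonneg h0]
  exact (perimeter_bounds ω n).1

/-- The mean absolute vertical step. -/
noncomputable def mabs : ℝ := ∫ e, |wv e| ∂P0

theorem mabs_nonneg : 0 ≤ mabs := integral_nonneg fun _ => abs_nonneg _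

theorem integral_L_le (n : ℕ) :
    ∫ ω, hullPerimeter (fun i => step (ω i)) n ∂PP ≤ 2 * (1 + mabs) * (n + 1) ^ 3 := by
  have h1 : ∫ ω, hullPerimeter (fun i => step (ω i)) n ∂PP ≤
      ∫ ω : Om, 2 * ((n : ℝ) + 1) ^ 2 * ∑ k ∈ Finset.range n, (1 + |wv (ω k)|) ∂PP :=
    integral_mono ((memLp_L n).integrable (by norm_num)) ((memLp_bound n).integrable (by norm_num))
      fun ω => (perimeter_bounds ω n).1
  have h2 : ∀ k, Integrable (fun ω : Om => |wv (ω k)|) PP := fun k =>
    ((memLp_wvi k).abs).integrable (by norm_num)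
  have h3 : ∀ k, ∫ ω : Om, |wv (ω k)| ∂PP = mabs := by
    intro k
    unfold mabs
    rw [← map_eval k, integral_map (measurable_pi_apply k).aemeasurable]
    exact (measurable_of_countable _).aestronglyMeasurable
  have h6 : ∀ k ∈ Finset.range n, Integrable (fun ω : Om => 1 + |wv (ω k)|) PP := fun k _ =>
    (integrable_const (1 : ℝ)).add (h2 k)
  rw [integral_const_mul, integral_finsetSum _ h6] at h1
  have h4 : ∀ k ∈ Finset.range n, ∫ ω : Om, (1 + |wv (ω k)|) ∂PP = 1 + mabs := by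
    intro k _
    rw [integral_add (integrable_const 1) (h2 k), h3]
    simp
  rw [Finset.sum_congr rfl h4, Finset.sum_const, Finset.card_range, nsmul_eq_mul] at h1
  refine h1.trans ?_
  have := mabs_nonneg
  have h5 : (n : ℝ) * (1 + mabs) ≤ ((n : ℝ) + 1) * (1 + mabs) := by gcongr; linarith
  calc 2 * ((n : ℝ) + 1) ^ 2 * (n * (1 + mabs)) ≤ 2 * ((n : ℝ) + 1) ^ 2 * ((n + 1) * (1 + mabs)) := by
        gcongr
    _ = _ := by ring

theorem var_scale (n m : ℕ) (h : 2 * (2 * (1 + mabs) * ((n : ℝ) + 1) ^ 3) ≤ 2 ^ m) :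
    n * c0 / (4 * ((m : ℝ) + 1) ^ 2) ≤
      Var[fun ω : Om => hullPerimeter (fun i => step (ω i)) n; PP] := by
  have hm : ∀ i, MeasurableSet {ω : Om | (ω i).1 = m} := fun i =>
    (measurable_fst.comp (measurable_pi_apply i)) (MeasurableSet.singleton m)
  have h1 := var_lower PP (fun ω : Om => hullPerimeter (fun i => step (ω i)) n) (memLp_L n)
    (fun i => {ω : Om | (ω i).1 = m}) hm n (c0 * ((1 / 4) ^ m / (m + 1) ^ 2)) (2 ^ m)
    (by positivity) (fun i _ => ?_) (fun i _ j _ hij => ?_) (fun i hi ω hω => ?_) ?_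
  · refine (le_of_eq ?_).trans h1
    have h2 : ((1 / 4 : ℝ)) ^ m * (2 ^ m) ^ 2 = 1 := by
      rw [← pow_mul, mul_comm m 2, pow_mul, ← mul_pow]
      norm_num
    calc n * c0 / (4 * ((m : ℝ) + 1) ^ 2) =
        n * c0 * 1 / (4 * ((m : ℝ) + 1) ^ 2) := by rw [mul_one]
      _ = n * c0 * ((1 / 4 : ℝ) ^ m * (2 ^ m) ^ 2) / (4 * ((m : ℝ) + 1) ^ 2) := by rw [h2]
      _ = _ := by
        field_simp
  · rw [← P0_scale, ← map_eval i, map_measureReal_apply (measurable_pi_apply i)]
    · rfl
    · exact measurable_fst (MeasurableSet.singleton m)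
  · have h2 : iIndepFun (fun (i : ℕ) (ω : Om) => ω i) PP :=
      iIndepFun_infinitePi (P := fun _ : ℕ => P0) (X := fun _ p => p) (fun _ => measurable_id)
    have h3 := (h2.indepFun hij).comp
      (φ := ({e : ℕ × Bool | e.1 = m}).indicator fun _ => (1 : ℝ))
      (ψ := ({e : ℕ × Bool | e.1 = m}).indicator fun _ => (1 : ℝ))
      (measurable_of_countable _) (measurable_of_countable _)
    exact h3
  · have h2 := (perimeter_bounds ω n).2 i hi
    rw [abs_wv] at h2
    have hω : (ω i).1 = m := hω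
    rwa [hω] at h2
  · have := integral_L_le n
    linarith

theorem log2_le (n : ℕ) (hn : 2 ≤ n) :
    ((4 * (Nat.log 2 (n + 1) + 1) : ℕ) : ℝ) + 1 ≤ 20 * Real.log n := by
  have hn' : (2 : ℝ) ≤ n := by exact_mod_cast hn
  have h1 : (Nat.log 2 (n + 1) : ℝ) * Real.log 2 ≤ Real.log (n + 1) := by
    rw [← Real.log_pow]
    refine Real.log_le_log (by positivity) ?_
    have := Nat.pow_log_le_self 2 (Nat.succ_ne_zero n)
    exact_mod_cast this
  have h2 : Real.log (n + 1) ≤ 2 * Real.log n := by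
    rw [← Real.log_rpow (by linarith)]
    refine Real.log_le_log (by linarith) ?_
    rw [show (2 : ℝ) = ((2 : ℕ) : ℝ) by norm_num, Real.rpow_natCast]
    nlinarith
  have h3 : (0.6931471803 : ℝ) < Real.log 2 := Real.log_two_gt_d9
  have h4 : Real.log 2 ≤ Real.log n := Real.log_le_log (by norm_num) hn'
  push_cast
  have h5 : (Nat.log 2 (n + 1) : ℝ) * 0.69 ≤ 2 * Real.log n := by
    have : (0 : ℝ) ≤ Nat.log 2 (n + 1) := by positivity
    nlinarith
  nlinarith

/-- There are a probability space and independent identically distributed random vectors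
`Z_0, Z_1, ...` in the plane with finite second moment, nonzero drift `μ`, `σ_∥² = 0` and
`σ_⊥² > 0`, such that the perimeter `L_n` of the convex hull of the first `n` steps of the walk
has variance at least `c n / (log n)²` for large `n`; in particular `Var L_n / log n → ∞`. -/
theorem result :
    ∃ (Ω : Type) (_ : MeasurableSpace Ω) (P : Measure Ω) (_ : IsProbabilityMeasure P)
      (Z : ℕ → Ω → Pl),
      (∀ i, Measurable (Z i)) ∧ iIndepFun Z P ∧ (∀ i, IdentDistrib (Z i) (Z 0) P P) ∧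
      MemLp (Z 0) 2 P ∧
      (∃ μ : Pl, μ = ∫ ω, Z 0 ω ∂P ∧ μ ≠ 0 ∧
        ∫ ω, ⟪Z 0 ω - μ, ‖μ‖⁻¹ • μ⟫_ℝ ^ 2 ∂P = 0 ∧
        ∀ v : Pl, ‖v‖ = 1 → ⟪μ, v⟫_ℝ = 0 → 0 < ∫ ω, ⟪Z 0 ω - μ, v⟫_ℝ ^ 2 ∂P) ∧
      (∀ n, MemLp (fun ω => hullPerimeter (fun i => Z i ω) n) 2 P) ∧
      (∃ c : ℝ, 0 < c ∧ ∀ᶠ n : ℕ in atTop,
        c * n / Real.log n ^ 2 ≤ Var[fun ω => hullPerimeter (fun i => Z i ω) n; P]) ∧
      Tendsto (fun n : ℕ => Var[fun ω => hullPerimeter (fun i => Z i ω) n; P] / Real.log n)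
        atTop atTop := by
  have hstep : Measurable step := measurable_of_countable _
  have hcoord : iIndepFun (fun (i : ℕ) (ω : Om) => ω i) PP :=
    iIndepFun_infinitePi (P := fun _ : ℕ => P0) (X := fun _ p => p) (fun _ => measurable_id)
  have hZ2 : MemLp (fun ω : Om => step (ω 0)) 2 PP := by
    refine ((memLp_const (1 : ℝ)).add (memLp_wvi 0).abs).mono'
      (hstep.comp (measurable_pi_apply 0)).aestronglyMeasurable ?_
    exact Eventually.of_forall fun ω => norm_step _
  have hZi : Integrable (fun ω : Om => step (ω 0)) PP := hZ2.integrable (by norm_num)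
  have hmean : ∫ ω : Om, step (ω 0) ∂PP = !₂[1, 0] := by
    ext i
    have h1 := (EuclideanSpace.proj (𝕜 := ℝ) i : Pl →L[ℝ] ℝ).integral_comp_comm hZi
    have h2 : (∫ ω : Om, step (ω 0) ∂PP) i = ∫ ω : Om, (step (ω 0)) i ∂PP := h1.symm
    rw [h2]
    have h3 : ∫ ω : Om, wv (ω 0) ∂PP = 0 := by
      rw [← integral_wv, ← map_eval 0, integral_map (measurable_pi_apply 0).aemeasurable]
      exact (measurable_of_countable _).aestronglyMeasurable
    fin_cases i
    · simp [step]
    · simpa [step] using h3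
  have hbound : ∃ c : ℝ, 0 < c ∧ ∀ᶠ n : ℕ in atTop,
      c * n / Real.log n ^ 2 ≤
        Var[fun ω : Om => hullPerimeter (fun i => step (ω i)) n; PP] := by
    refine ⟨c0 / 1600, by have := c0_pos; positivity, ?_⟩
    filter_upwards [eventually_ge_atTop 2,
      eventually_ge_atTop (⌈4 * (1 + mabs)⌉₊)] with n hn2 hn
    have hn' : 4 * (1 + mabs) ≤ n := (Nat.le_ceil _).trans (by exact_mod_cast hn)
    have hn2' : (2 : ℝ) ≤ n := by exact_mod_cast hn2
    have hlog : 0 < Real.log n := Real.log_pos (by linarith)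
    set m := 4 * (Nat.log 2 (n + 1) + 1) with hm
    have h1 : ((n : ℝ) + 1) ^ 4 ≤ 2 ^ m := by
      have h2 : n + 1 ≤ 2 ^ (Nat.log 2 (n + 1) + 1) :=
        (Nat.lt_pow_succ_log_self one_lt_two (n + 1)).le
      have h3 : (n : ℝ) + 1 ≤ 2 ^ (Nat.log 2 (n + 1) + 1) := by exact_mod_cast h2
      calc ((n : ℝ) + 1) ^ 4 ≤ ((2 : ℝ) ^ (Nat.log 2 (n + 1) + 1)) ^ 4 := by gcongr
        _ = 2 ^ m := by rw [← pow_mul, hm, mul_comm]
    have h2 := var_scale n m (by
      have h4 : 4 * (1 + mabs) * ((n : ℝ) + 1) ^ 3 ≤ (n + 1) * (n + 1) ^ 3 := by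
        gcongr
        linarith
      have h5 : ((n : ℝ) + 1) * (n + 1) ^ 3 = (n + 1) ^ 4 := by ring
      have h6 : 2 * (2 * (1 + mabs) * ((n : ℝ) + 1) ^ 3) = 4 * (1 + mabs) * (n + 1) ^ 3 := by ring
      linarith)
    refine le_trans ?_ h2
    have h3 := log2_le n hn2
    rw [← hm] at h3
    have hc := c0_pos
    rw [div_le_div_iff₀ (by positivity) (by positivity)]
    have h4 : ((m : ℝ) + 1) ^ 2 ≤ (20 * Real.log n) ^ 2 := by gcongr
    calc c0 / 1600 * n * (4 * ((m : ℝ) + 1) ^ 2) ≤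
        c0 / 1600 * n * (4 * (20 * Real.log n) ^ 2) := by gcongr
      _ = n * c0 * Real.log n ^ 2 := by ring
  refine ⟨Om, inferInstance, PP, inferInstance, fun i ω => step (ω i),
    fun i => hstep.comp (measurable_pi_apply i), hcoord.comp (fun _ => step) (fun _ => hstep),
    fun i => ?_, hZ2, ⟨!₂[1, 0], hmean.symm, ?_, ?_, ?_⟩, memLp_L, hbound, ?_⟩
  · refine ⟨(hstep.comp (measurable_pi_apply i)).aemeasurable,
      (hstep.comp (measurable_pi_apply 0)).aemeasurable, ?_⟩
    have h1 : ∀ j : ℕ, PP.map (fun ω => step (ω j)) = P0.map step := by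
      intro j
      rw [← map_eval j, Measure.map_map hstep (measurable_pi_apply j)]
      rfl
    rw [h1, h1]
  · intro h
    have := congrArg (fun v : Pl => v 0) h
    simp at this
  · have h1 : ∀ ω : Om, ⟪step (ω 0) - !₂[1, 0], ‖(!₂[1, 0] : Pl)‖⁻¹ • (!₂[1, 0] : Pl)⟫_ℝ ^ 2 = 0 := by
      intro ω
      rw [inner_smul_right]
      simp [step, PiLp.inner_apply]
    simp_rw [h1]
    simp
  · intro v hv1 hv2
    have hv0 : v 0 = 0 := by
      simpa [PiLp.inner_apply] using hv2
    have hv3 : v 1 ^ 2 = 1 := by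
      have := EuclideanSpace.norm_sq_eq v
      rw [hv1, Fin.sum_univ_two, hv0] at this
      simpa using this.symm
    have h1 : ∀ ω : Om, ⟪step (ω 0) - !₂[1, 0], v⟫_ℝ ^ 2 = wv (ω 0) ^ 2 := by
      intro ω
      have : ⟪step (ω 0) - !₂[1, 0], v⟫_ℝ = wv (ω 0) * v 1 := by
        simp [step, PiLp.inner_apply, hv0, mul_comm]
      rw [this, mul_pow, hv3, mul_one]
    simp_rw [h1]
    have h2 : ∫ ω : Om, wv (ω 0) ^ 2 ∂PP = ∫ e, wv e ^ 2 ∂P0 := by
      rw [← map_eval 0, integral_map (measurable_pi_apply 0).aemeasurable]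
      exact (measurable_of_countable _).aestronglyMeasurable
    rw [h2]
    exact integral_wv_sq
  · obtain ⟨c, hc, hb⟩ := hbound
    have h1 : Tendsto (fun x : ℝ => Real.log x ^ 3 / (1 * x + 0)) atTop (𝓝 0) :=
      Real.tendsto_pow_log_div_mul_add_atTop 1 0 3 one_ne_zero
    have h2 : Tendsto (fun x : ℝ => Real.log x ^ 3 / x) atTop (𝓝[>] 0) := by
      refine tendsto_nhdsWithin_iff.2 ⟨by simpa using h1, ?_⟩
      filter_upwards [eventually_gt_atTop 1] with x hx
      have := Real.log_pos hx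
      exact div_pos (pow_pos this 3) (lt_trans zero_lt_one hx)
    have h3 : Tendsto (fun x : ℝ => c * (Real.log x ^ 3 / x)⁻¹) atTop atTop :=
      (h2.inv_tendsto_nhdsGT_zero).const_mul_atTop hc
    refine tendsto_atTop_mono' _ ?_ (h3.comp tendsto_natCast_atTop_atTop)
    filter_upwards [hb, eventually_ge_atTop 2] with n hn hn2
    have hn2' : (2 : ℝ) ≤ n := by exact_mod_cast hn2
    have hlog : 0 < Real.log n := Real.log_pos (by linarith)
    simp only [Function.comp_apply]
    rw [le_div_iff₀ hlog]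
    refine le_trans (le_of_eq ?_) hn
    field_simp

end Pool.Agent.Results.MP_1c2560_pr.PerimeterVariance
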